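import Mathlib
import Pool.Agent.H430R2.PermCubes.Defs

/-!
# Permutation cubes of order six and dimension three

The tables of 3 three-dimensional permutation cubes of order six, any three of which form a
variational cube (computer search with a cyclic symmetry of order six).
-/

set_option autoImplicit false

namespace Pool.Agent.X217.V6

/-- the tables, packed in base 6: the value at `(a, b, c)` is the digit of index `36 a + 6 b + c` -/
def tab : ℕ → ℕ
  | 0 => 1115188069754210893790755617064881725817499660386333086463961588492977529447012207179966434954297906594767317437615754114244590595073386521166697587598366230196012365790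
  | 1 => 364289490463946164906849015583844484743066068046059219324921011415028595294671741096792656544979967070508201885374883625323857934705609668006168501295468565871075904290
  | _ => 303638938105633419479212712679381929701375217399693094546946954278191653869984295141478105014768387853887968685686934160999812845544419623922491798996011882736935859665

/-- the value of the `j`-th cube at `(a, b, c)` -/
def T (j a b c : ℕ) : ℕ := (tab j / 6 ^ (36 * a + 6 * b + c)) % 6

/-- the inverse table, packed in base 216 -/
def inv : ℕ := 140870630444328385956554767288911084477753509165332062424958285754216005430880242618575399904572148445161991610990882212590310768268801729572278607909509404030488948730738998765779090668664824134441609043704227164928063664064992996929758253550491993001517561946979657079727265191601019272455577144444891785896737357864140875113755136434671686525276199013068354715614771263130766005334886935485114887674276999225708214670224998751298427043206787796109979009083219981601484893457889536800983249383107643345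

/-- the index of the cell with the first three values `u, v, w` -/
def I (u v w : ℕ) : ℕ := (inv / 216 ^ (36 * u + 6 * v + w)) % 216

theorem lat0 : ∀ j : Fin 3, ∀ b c t t' : Fin 6, T j t b c = T j t' b c → t = t' := by
  decide +kernel

theorem lat1 : ∀ j : Fin 3, ∀ a c t t' : Fin 6, T j a t c = T j a t' c → t = t' := by
  decide +kernel

theorem lat2 : ∀ j : Fin 3, ∀ a b t t' : Fin 6, T j a b t = T j a b t' → t = t' := by
  decide +kernel

theorem inv_spec : ∀ a b c : Fin 6,
    I (T 0 a b c) (T 1 a b c) (T 2 a b c) = 36 * (a : ℕ) + 6 * b + c := by
  decide +kernel

theorem T_lt (j a b c : ℕ) : T j a b c < 6 := Nat.mod_lt _ (by norm_num)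

/-- the cubes -/
def C (j : Fin 3) (x : Fin 3 → Fin 6) : Fin 6 := ⟨T j (x 0) (x 1) (x 2), T_lt _ _ _ _⟩

open Pool.Agent.H430R2.PermCubes

theorem cube (j : Fin 3) : IsPermutationCube 3 6 (C j) := by
  intro i x
  rw [← Finite.injective_iff_bijective]
  intro t t' h
  have h' := congrArg Fin.val h
  fin_cases i
  · exact lat0 j (x 1) (x 2) t t' (by simpa [C] using h')
  · exact lat1 j (x 0) (x 2) t t' (by simpa [C] using h')
  · exact lat2 j (x 0) (x 1) t t' (by simpa [C] using h')

theorem eq_of {x y : Fin 3 → Fin 6} (h : ∀ j : Fin 3, C j x = C j y) : x = y := by
  have h0 : T 0 (x 0) (x 1) (x 2) = T 0 (y 0) (y 1) (y 2) := congrArg Fin.val (h 0)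
  have h1 : T 1 (x 0) (x 1) (x 2) = T 1 (y 0) (y 1) (y 2) := congrArg Fin.val (h 1)
  have h2 : T 2 (x 0) (x 1) (x 2) = T 2 (y 0) (y 1) (y 2) := congrArg Fin.val (h 2)
  have e1 := inv_spec (x 0) (x 1) (x 2)
  have e2 := inv_spec (y 0) (y 1) (y 2)
  rw [h0, h1, h2, e2] at e1
  have a0 := (x 0).isLt
  have a1 := (x 1).isLt
  have a2 := (x 2).isLt
  have b0 := (y 0).isLt
  have b1 := (y 1).isLt
  have b2 := (y 2).isLt
  funext i
  fin_cases i
  · apply Fin.ext
    change (x 0 : ℕ) = y 0
    omega
  · apply Fin.ext
    change (x 1 : ℕ) = y 1
    omega
  · apply Fin.ext
    change (x 2 : ℕ) = y 2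
    omega

/-- three cubes of dimension three and order six form a variational cube -/
theorem variational : IsVariationalSet 3 6 3 C := by
  refine ⟨cube, fun e he => ?_⟩
  have hs : Function.Surjective e := Finite.injective_iff_surjective.1 he
  rw [← Finite.injective_iff_bijective]
  intro x y h
  apply eq_of
  intro j
  obtain ⟨i, rfl⟩ := hs j
  exact congrFun h i

end Pool.Agent.X217.V6
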